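import Pool.Agent.U873.HD.PartA

/-!
No analytic semigroup in the convolution algebra `L¹(ℝ)` is bounded on the half-disc
`0 < |t| ≤ 1, Re t > 0` (nor on any smaller half-disc `0 < |t| ≤ r, Re t > 0`).
-/

open MeasureTheory

namespace Pool.Agent.Results.MP_8f84d8_an.NoHalfDisc

theorem result (a : ℂ → Lp ℂ 1 (volume : Measure ℝ))
    (hol : DifferentiableOn ℂ a {t : ℂ | 0 < t.re})
    (conv : ∀ s t : ℂ, 0 < s.re → 0 < t.re →
      ∀ᵐ x : ℝ, (a (s + t) : ℝ → ℂ) x = ∫ y : ℝ, (a s : ℝ → ℂ) (x - y) * (a t : ℝ → ℂ) y)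
    (ne : ∃ t : ℂ, 0 < t.re ∧ a t ≠ 0) (r : ℝ) (hr : 0 < r) (C : ℝ) :
    ∃ t : ℂ, 0 < t.re ∧ 0 < ‖t‖ ∧ ‖t‖ ≤ r ∧ C < ‖a t‖ := by
  by_contra hcon
  push Not at hcon
  have hre : ∀ t : ℂ, ((r : ℂ) * t).re = r * t.re := fun t => by simp
  refine Pool.U873.HD.partA (fun t => a ((r : ℂ) * t)) ?_ ?_ ?_ C ?_
  · refine hol.comp (f := fun t : ℂ => (r : ℂ) * t) (by fun_prop) ?_
    intro t ht
    change 0 < ((r : ℂ) * t).re
    rw [hre]
    exact mul_pos hr ht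
  · intro s t hs ht
    have h := conv ((r : ℂ) * s) ((r : ℂ) * t) (by rw [hre]; exact mul_pos hr hs)
      (by rw [hre]; exact mul_pos hr ht)
    rw [← mul_add] at h
    exact h
  · obtain ⟨t, ht, hat⟩ := ne
    have hrc : (r : ℂ) ≠ 0 := by exact_mod_cast hr.ne'
    refine ⟨(r : ℂ)⁻¹ * t, ?_, ?_⟩
    · have : ((r : ℂ)⁻¹ * t).re = r⁻¹ * t.re := by
        rw [← Complex.ofReal_inv]; simp
      rw [this]
      positivity
    · rw [mul_inv_cancel_left₀ hrc]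
      exact hat
  · intro t ht ht1
    refine hcon ((r : ℂ) * t) (by rw [hre]; exact mul_pos hr ht) ?_ ?_
    · have ht0 : t ≠ 0 := by
        rintro rfl
        simp at ht
      have hrc : (r : ℂ) ≠ 0 := by exact_mod_cast hr.ne'
      exact norm_pos_iff.mpr (mul_ne_zero hrc ht0)
    · rw [norm_mul, Complex.norm_real, Real.norm_of_nonneg hr.le]
      exact mul_le_of_le_one_right hr.le ht1

end Pool.Agent.Results.MP_8f84d8_an.NoHalfDisc
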